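import Mathlib
import Pool.Agent.Helper49.RU.St

set_option autoImplicit false

namespace Pool.Agent.Helper33.RU

open Pool.Agent.Helper49.RU
open MeasureTheory Filter Topology Complex
open scoped ENNReal Cardinal ComplexConjugate

theorem hSEC : StSEC := by
  classical
  intro k S T q Z hTS hne hZ
  set r : (Fin k → Q) → ({j // j ∈ S \ T} → Q) := fun g j => g j.1 with hr
  obtain ⟨b, hb, hmax⟩ := Finset.exists_max_image (Z.image r)
    (fun b => (Z.filter (fun g => r g = b)).card) (hne.image r)
  obtain ⟨q', hq', rfl⟩ := Finset.mem_image.1 hb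
  refine ⟨q', hq', ?_⟩
  have h1 : Z.card = ∑ b ∈ Z.image r, (Z.filter (fun g => r g = b)).card :=
    Finset.card_eq_sum_card_image r Z
  have h2 : Z.card ≤ (Z.image r).card * (Z.filter (fun g => r g = r q')).card := by
    rw [h1]
    refine (Finset.sum_le_card_nsmul _ _ _ hmax).trans ?_
    rw [smul_eq_mul]
  have h3 : (Z.image r).card ≤ 9 ^ (S.card - T.card) := by
    refine (Finset.card_le_univ _).trans ?_
    rw [Fintype.card_fun, Fintype.card_coe, Finset.card_sdiff_of_subset hTS]
    have h4 : Fintype.card Q = 9 := by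
      simp [Q, Fintype.card_prod, ZMod.card]
    rw [h4]
  have h5 : (Z.filter (fun g => r g = r q')).card
      ≤ (Z.filter (fun g => ∀ j, j ∉ T → g j = q' j)).card := by
    refine Finset.card_le_card fun g hg => ?_
    rw [Finset.mem_filter] at hg ⊢
    refine ⟨hg.1, fun j hj => ?_⟩
    by_cases hjS : j ∈ S
    · exact congrFun hg.2 ⟨j, Finset.mem_sdiff.2 ⟨hjS, hj⟩⟩
    · rw [hZ g hg.1 j hjS, hZ q' hq' j hjS]
  calc Z.card ≤ (Z.image r).card * (Z.filter (fun g => r g = r q')).card := h2
    _ ≤ 9 ^ (S.card - T.card) * (Z.filter (fun g => ∀ j, j ∉ T → g j = q' j)).card :=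
        Nat.mul_le_mul h3 h5
    _ = _ := mul_comm _ _

end Pool.Agent.Helper33.RU
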